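import Pool.Agent.helper51.QS.SpecA

/-!
# Project qs, row QRR: the coordinates are quasi-regular
-/

set_option autoImplicit false

namespace Pool.Agent.QS

open Pool.Agent.PC MvPolynomial

universe u

theorem QRR_lin {k : Type u} [Field k] {n : ℕ} (p : MvPolynomial (Fin n) k) :
    p - (C (coeff 0 p) + ∑ i, C (coeff (Finsupp.single i 1) p) * X i) ∈ idealOfVars (Fin n) k ^ 2 := by
  classical
  rw [mem_pow_idealOfVars_iff']
  intro x hx
  rw [coeff_sub, coeff_add, coeff_C, coeff_sum]
  have h1 : ∀ i : Fin n, coeff x (C (coeff (Finsupp.single i 1) p) * X i)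
      = if Finsupp.single i 1 = x then coeff x p else 0 := by
    intro i
    rw [coeff_C_mul, coeff_X]
    by_cases h : Finsupp.single i 1 = x
    · rw [if_pos h, if_pos h, mul_one, h]
    · rw [if_neg h, if_neg h, mul_zero]
  rw [Finset.sum_congr rfl fun i _ => h1 i]
  by_cases hx0 : x = 0
  · subst hx0
    have h2 : ∀ i : Fin n, ¬ (Finsupp.single i 1 : Fin n →₀ ℕ) = 0 := by
      intro i h
      have := DFunLike.congr_fun h i
      simp at this
    rw [if_pos rfl, Finset.sum_congr rfl fun i _ => if_neg (h2 i), Finset.sum_const_zero]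
    ring
  · have h3 : x.degree = 1 := by
      have h4 : x.degree ≠ 0 := fun h => hx0 ((Finsupp.degree_eq_zero_iff x).1 h)
      omega
    obtain ⟨i, hi⟩ : ∃ i, Finsupp.single i 1 = x := by
      obtain ⟨i, hi⟩ := Finsupp.ne_iff.1 hx0
      refine ⟨i, ?_⟩
      have h5 : 1 ≤ x i := Nat.one_le_iff_ne_zero.2 hi
      have h6 : Finsupp.single i 1 ≤ x := by
        intro j
        by_cases hj : i = j
        · subst hj
          rw [Finsupp.single_eq_same]
          exact h5
        · rw [Finsupp.single_apply, if_neg hj]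
          exact Nat.zero_le _
      obtain ⟨z, hz⟩ := exists_add_of_le h6
      have h7 : x.degree = (Finsupp.single i 1 : Fin n →₀ ℕ).degree + z.degree := by
        rw [hz, map_add]
      rw [h3, Finsupp.degree_single] at h7
      have h8 : z = 0 := (Finsupp.degree_eq_zero_iff z).1 (by omega)
      rw [hz, h8, add_zero]
    have h9 : ∀ j : Fin n, (if Finsupp.single j 1 = x then coeff x p else 0)
        = if i = j then coeff x p else 0 := by
      intro j
      by_cases hj : i = j
      · subst hj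
        rw [if_pos hi, if_pos rfl]
      · rw [if_neg hj, if_neg]
        intro h
        apply hj
        have h10 : (Finsupp.single j 1 : Fin n →₀ ℕ) = Finsupp.single i 1 := h.trans hi.symm
        have h11 := DFunLike.congr_fun h10 i
        rw [Finsupp.single_eq_same, Finsupp.single_apply] at h11
        by_contra h12
        rw [if_neg (fun h13 => h12 h13.symm)] at h11
        exact absurd h11 (by norm_num)
    rw [Finset.sum_congr rfl fun j _ => h9 j, Finset.sum_ite_eq, if_pos (Finset.mem_univ i),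
      if_neg (fun h => hx0 h.symm)]
    ring

theorem QRR_map {k A : Type u} [Field k] [CommRing A] [Algebra k A] {n : ℕ} {m : Ideal A}
    {y : Fin n → A} (hy : ∀ i, y i ∈ m) (N : ℕ) {p : MvPolynomial (Fin n) k}
    (hp : p ∈ idealOfVars (Fin n) k ^ N) : aeval y p ∈ m ^ N := by
  have h1 : (idealOfVars (Fin n) k).map (aeval y : MvPolynomial (Fin n) k →ₐ[k] A) ≤ m := by
    rw [Ideal.map_le_iff_le_comap, idealOfVars, Ideal.span_le]
    rintro _ ⟨i, rfl⟩
    show aeval y (X i) ∈ m
    rw [aeval_X]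
    exact hy i
  have h2 : aeval y p ∈ (idealOfVars (Fin n) k ^ N).map (aeval y : MvPolynomial (Fin n) k →ₐ[k] A) :=
    Ideal.mem_map_of_mem _ hp
  rw [Ideal.map_pow] at h2
  exact Ideal.pow_right_mono h1 N h2

theorem QRR_const {k A : Type u} [Field k] [CommRing A] [Algebra k A] {n : ℕ} {m : Ideal A}
    (hm : m ≠ ⊤) {y : Fin n → A} (hy : ∀ i, y i ∈ m) {p : MvPolynomial (Fin n) k}
    (hp : aeval y p ∈ m) : coeff 0 p = 0 := by
  by_contra h
  have h1 : p - C (coeff 0 p) ∈ idealOfVars (Fin n) k ^ 1 := by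
    rw [mem_pow_idealOfVars_iff']
    intro x hx
    have hx0 : x = 0 := (Finsupp.degree_eq_zero_iff x).1 (by omega)
    rw [hx0, coeff_sub, coeff_zero_C, sub_self]
  have h2 := QRR_map hy 1 h1
  rw [pow_one, map_sub, aeval_C] at h2
  have h3 : algebraMap k A (coeff 0 p) ∈ m := by
    have h4 := m.sub_mem hp h2
    rwa [sub_sub_cancel] at h4
  apply hm
  apply m.eq_top_of_isUnit_mem h3
  exact (IsUnit.mk0 _ h).map (algebraMap k A)

theorem QRR_two {k A : Type u} [Field k] [CommRing A] [Algebra k A] {n : ℕ} {m : Ideal A}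
    (hm : m ≠ ⊤) {y : Fin n → A} (hy : Coord k m y) {p : MvPolynomial (Fin n) k}
    (hp : aeval y p ∈ m ^ 2) : p ∈ idealOfVars (Fin n) k ^ 2 := by
  have h0 : coeff 0 p = 0 := QRR_const hm hy.1 (Ideal.pow_le_self two_ne_zero hp)
  have h1 := QRR_lin p
  have h2 := QRR_map hy.1 2 h1
  rw [h0, C_0, zero_add, map_sub, map_sum] at h2
  have h3 : ∑ i, aeval y (C (coeff (Finsupp.single i 1) p) * X i)
      = ∑ i, (coeff (Finsupp.single i 1) p) • y i := by
    apply Finset.sum_congr rfl
    intro i _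
    rw [map_mul, aeval_C, aeval_X, Algebra.smul_def]
  rw [h3] at h2
  have h4 : ∑ i, (coeff (Finsupp.single i 1) p) • y i ∈ m ^ 2 := by
    have h5 := (m ^ 2).sub_mem hp h2
    rwa [sub_sub_cancel] at h5
  have h6 := hy.2.1 _ h4
  have h7 : ∑ i, C (coeff (Finsupp.single i 1) p) * X i = (0 : MvPolynomial (Fin n) k) := by
    apply Finset.sum_eq_zero
    intro i _
    have h8 : coeff (Finsupp.single i 1) p = 0 := congrFun h6 i
    rw [h8, C_0, zero_mul]
  rw [h0, C_0, zero_add, h7, sub_zero] at h1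
  exact h1

theorem QRR_near {k : Type u} [Field k] {n : ℕ} {p : Fin n → MvPolynomial (Fin n) k}
    (hp : ∀ i, p i - X i ∈ idealOfVars (Fin n) k ^ 2) (M : ℕ) :
    ∀ f ∈ idealOfVars (Fin n) k ^ M, aeval p f - f ∈ idealOfVars (Fin n) k ^ (M + 1) := by
  have h0 : ∀ f : MvPolynomial (Fin n) k, aeval p f - f ∈ idealOfVars (Fin n) k ^ 2 := by
    intro f
    have h1 : (Ideal.Quotient.mkₐ k (idealOfVars (Fin n) k ^ 2)).comp
        (aeval p : MvPolynomial (Fin n) k →ₐ[k] MvPolynomial (Fin n) k)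
        = Ideal.Quotient.mkₐ k (idealOfVars (Fin n) k ^ 2) := by
      apply MvPolynomial.algHom_ext
      intro i
      show Ideal.Quotient.mk _ (aeval p (X i)) = Ideal.Quotient.mk _ (X i)
      rw [aeval_X, Ideal.Quotient.eq]
      exact hp i
    have h2 : Ideal.Quotient.mk (idealOfVars (Fin n) k ^ 2) (aeval p f)
        = Ideal.Quotient.mk (idealOfVars (Fin n) k ^ 2) f := DFunLike.congr_fun h1 f
    rwa [Ideal.Quotient.eq] at h2
  induction M with
  | zero =>
    intro f _
    exact Ideal.pow_le_pow_right (by norm_num) (h0 f)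
  | succ M ih =>
    intro f hf
    rw [pow_succ] at hf
    refine Submodule.mul_induction_on hf ?_ ?_
    · intro a ha b hb
      have h1 : aeval p (a * b) - a * b = (aeval p a - a) * aeval p b + a * (aeval p b - b) := by
        rw [map_mul]; ring
      have h2 : aeval p b ∈ idealOfVars (Fin n) k := by
        have h3 : aeval p b = (aeval p b - b) + b := by ring
        rw [h3]
        exact Ideal.add_mem _ (Ideal.pow_le_self two_ne_zero (h0 b)) hb
      rw [h1]
      apply Ideal.add_mem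
      · rw [pow_succ]
        exact Ideal.mul_mem_mul (ih a ha) h2
      · have h4 : idealOfVars (Fin n) k ^ (M + 1 + 1)
            = idealOfVars (Fin n) k ^ M * idealOfVars (Fin n) k ^ 2 := by
          rw [← pow_add]
        rw [h4]
        exact Ideal.mul_mem_mul ha (h0 b)
    · intro a b ha hb
      have h1 : aeval p (a + b) - (a + b) = (aeval p a - a) + (aeval p b - b) := by
        rw [map_add]; ring
      rw [h1]
      exact Ideal.add_mem _ ha hb

theorem QRR_back {k : Type u} [Field k] {n : ℕ} {p : Fin n → MvPolynomial (Fin n) k}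
    (hp : ∀ i, p i - X i ∈ idealOfVars (Fin n) k ^ 2) {N : ℕ} {f : MvPolynomial (Fin n) k}
    (hf : aeval p f ∈ idealOfVars (Fin n) k ^ N) : ∀ M ≤ N, f ∈ idealOfVars (Fin n) k ^ M := by
  intro M
  induction M with
  | zero =>
    intro _
    rw [pow_zero, Ideal.one_eq_top]
    exact Submodule.mem_top
  | succ M ih =>
    intro hM
    have h1 := QRR_near hp M f (ih (by omega))
    have h2 : aeval p f ∈ idealOfVars (Fin n) k ^ (M + 1) := Ideal.pow_le_pow_right hM hf
    have h3 := Ideal.sub_mem _ h2 h1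
    rwa [sub_sub_cancel] at h3

theorem QRR_main {k A : Type u} [Field k] [CommRing A] [Algebra k A] [Algebra.FormallySmooth k A]
    {n : ℕ} {m : Ideal A} (hm : m ≠ ⊤) (hk : ∀ a : A, ∃ c : k, a - algebraMap k A c ∈ m)
    {y : Fin n → A} (hy : Coord k m y) {N : ℕ} (hN : 2 ≤ N) {f : MvPolynomial (Fin n) k}
    (hf : aeval y f ∈ m ^ N) : f ∈ idealOfVars (Fin n) k ^ N := by
  set I : Ideal (MvPolynomial (Fin n) k) := idealOfVars (Fin n) k with hI
  let θ : MvPolynomial (Fin n) k →ₐ[k] A ⧸ (m ^ 2) :=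
    (Ideal.Quotient.mkₐ k (m ^ 2)).comp (aeval y)
  have hθ : ∀ p, θ p = Ideal.Quotient.mk (m ^ 2) (aeval y p) := fun p => rfl
  have hθ0 : ∀ a : MvPolynomial (Fin n) k, a ∈ I ^ N → θ a = 0 := by
    intro a ha
    rw [hθ, Ideal.Quotient.eq_zero_iff_mem]
    exact QRR_map hy.1 2 (Ideal.pow_le_pow_right hN ha)
  let g : MvPolynomial (Fin n) k ⧸ (I ^ N) →ₐ[k] A ⧸ (m ^ 2) := Ideal.Quotient.liftₐ (I ^ N) θ hθ0
  have hg : ∀ p, g (Ideal.Quotient.mk (I ^ N) p) = Ideal.Quotient.mk (m ^ 2) (aeval y p) :=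
    fun p => rfl
  have hgs : Function.Surjective g := by
    intro z
    obtain ⟨a, rfl⟩ := Ideal.Quotient.mk_surjective z
    obtain ⟨c, hc⟩ := hk a
    obtain ⟨d, hd⟩ := hy.2.2 _ hc
    refine ⟨Ideal.Quotient.mk (I ^ N) (C c + ∑ i, C (d i) * X i), ?_⟩
    rw [hg, eq_comm, Ideal.Quotient.eq, map_add, aeval_C, map_sum]
    have h1 : ∑ i, aeval y (C (d i) * X i) = ∑ i, d i • y i := by
      apply Finset.sum_congr rfl
      intro i _
      rw [map_mul, aeval_C, aeval_X, Algebra.smul_def]
    rw [h1, ← sub_sub]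
    exact hd
  -- elements which are mapped to `m`
  have hlow : ∀ (p : MvPolynomial (Fin n) k) (b : A), b ∈ m →
      g (Ideal.Quotient.mk (I ^ N) p) = Ideal.Quotient.mk (m ^ 2) b → p ∈ I := by
    intro p b hb h
    rw [hg, Ideal.Quotient.eq] at h
    have h1 : aeval y p ∈ m := by
      have h2 := m.add_mem (Ideal.pow_le_self two_ne_zero h) hb
      rwa [sub_add_cancel] at h2
    have h3 := QRR_const hm hy.1 h1
    have h4 : p ∈ I ^ 1 := by
      rw [hI, mem_pow_idealOfVars_iff']
      intro x hx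
      have hx0 : x = 0 := (Finsupp.degree_eq_zero_iff x).1 (by omega)
      rw [hx0, h3]
    rwa [pow_one] at h4
  have hpow : (I.map (Ideal.Quotient.mk (I ^ N))) ^ N = ⊥ := by
    rw [← Ideal.map_pow, Ideal.map_quotient_self]
  have hker : IsNilpotent (RingHom.ker (g : (MvPolynomial (Fin n) k ⧸ (I ^ N)) →+* A ⧸ (m ^ 2))) := by
    refine ⟨N, ?_⟩
    have h1 : RingHom.ker (g : (MvPolynomial (Fin n) k ⧸ (I ^ N)) →+* A ⧸ (m ^ 2))
        ≤ I.map (Ideal.Quotient.mk (I ^ N)) := by
      intro z hz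
      obtain ⟨p, rfl⟩ := Ideal.Quotient.mk_surjective z
      apply Ideal.mem_map_of_mem
      apply hlow p 0 m.zero_mem
      rw [map_zero]
      exact hz
    have h2 := Ideal.pow_right_mono h1 N
    rw [hpow] at h2
    exact le_bot_iff.1 h2
  let ψ : A →ₐ[k] MvPolynomial (Fin n) k ⧸ (I ^ N) :=
    Algebra.FormallySmooth.liftOfSurjective (Ideal.Quotient.mkₐ k (m ^ 2)) g hgs hker
  have hψ : ∀ a, g (ψ a) = Ideal.Quotient.mk (m ^ 2) a := fun a =>
    Algebra.FormallySmooth.liftOfSurjective_apply (Ideal.Quotient.mkₐ k (m ^ 2)) g hgs hker a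
  have hψm : m.map ψ ≤ I.map (Ideal.Quotient.mk (I ^ N)) := by
    rw [Ideal.map_le_iff_le_comap]
    intro b hb
    show ψ b ∈ I.map (Ideal.Quotient.mk (I ^ N))
    obtain ⟨p, hp⟩ := Ideal.Quotient.mk_surjective (ψ b)
    rw [← hp]
    apply Ideal.mem_map_of_mem
    apply hlow p b hb
    rw [hp]
    exact hψ b
  have hψf : ψ (aeval y f) = 0 := by
    have h1 : ψ (aeval y f) ∈ (m ^ N).map ψ := Ideal.mem_map_of_mem _ hf
    rw [Ideal.map_pow] at h1
    have h2 := Ideal.pow_right_mono hψm N h1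
    rw [hpow] at h2
    exact h2
  choose p hp using fun i => Ideal.Quotient.mk_surjective (ψ (y i))
  have hpX : ∀ i, p i - X i ∈ I ^ 2 := by
    intro i
    apply QRR_two hm hy
    rw [map_sub, aeval_X]
    have h1 := hψ (y i)
    rw [← hp i, hg, Ideal.Quotient.eq] at h1
    exact h1
  have hpf : aeval p f ∈ I ^ N := by
    rw [← Ideal.Quotient.eq_zero_iff_mem]
    have h1 : (Ideal.Quotient.mkₐ k (I ^ N)).comp
        (aeval p : MvPolynomial (Fin n) k →ₐ[k] MvPolynomial (Fin n) k)
        = ψ.comp (aeval y : MvPolynomial (Fin n) k →ₐ[k] A) := by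
      apply MvPolynomial.algHom_ext
      intro i
      show Ideal.Quotient.mk _ (aeval p (X i)) = ψ (aeval y (X i))
      rw [aeval_X, aeval_X, hp i]
    have h2 : Ideal.Quotient.mk (I ^ N) (aeval p f) = ψ (aeval y f) := DFunLike.congr_fun h1 f
    rw [h2, hψf]
  exact QRR_back hpX hpf N le_rfl

theorem QRR : QRR_stmt.{u} := by
  intro k A _ _ _ _ n m hm hk y hy N f hf α hα
  have key : f ∈ idealOfVars (Fin n) k ^ N := by
    rcases Nat.lt_or_ge N 2 with h | h
    · rw [mem_pow_idealOfVars_iff']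
      intro x hx
      have hx0 : x = 0 := (Finsupp.degree_eq_zero_iff x).1 (by omega)
      have hN : N = 1 := by omega
      rw [hN, pow_one] at hf
      rw [hx0]
      exact QRR_const hm hy.1 hf
    · exact QRR_main hm hk hy h hf
  exact (mem_pow_idealOfVars_iff' N f).1 key α hα

end Pool.Agent.QS
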